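import Pool.Agent.K4H40.NS.Spec

set_option autoImplicit false

namespace Pool.Agent.K4H40.NS

open MvPolynomial

section Dim29

theorem hs_eq_span29 (m d : ℕ) (K : Type) [Field K] : hs m K d = Submodule.span K
    (Set.range fun e : {e // e ∈ (Finset.univ : Finset (Fin m)).finsuppAntidiag d} =>
      (monomial e.1 (1 : K) : R m K)) := by
  apply le_antisymm
  · intro f hf
    have hf' : f.IsHomogeneous d := (mem_homogeneousSubmodule d f).1 hf
    rw [f.as_sum]
    refine Submodule.sum_mem _ (fun e he => ?_)
    have hdeg : e.degree = d := by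
      by_contra hne
      exact (MvPolynomial.mem_support_iff.1 he) (hf'.coeff_eq_zero hne)
    have h1 : (monomial e (coeff e f) : R m K) = coeff e f • monomial e 1 := by
      rw [smul_monomial, smul_eq_mul, mul_one]
    rw [h1]
    refine Submodule.smul_mem _ _ (Submodule.subset_span ⟨⟨e, ?_⟩, rfl⟩)
    rw [Finset.mem_finsuppAntidiag]
    refine ⟨?_, Finset.subset_univ _⟩
    rw [← hdeg, Finsupp.degree_eq_sum]
  · rw [Submodule.span_le]
    rintro _ ⟨e, rfl⟩
    show (monomial e.1 (1 : K) : R m K) ∈ hs m K d
    rw [mem_homogeneousSubmodule]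
    apply isHomogeneous_monomial
    have h1 := (Finset.mem_finsuppAntidiag.1 e.2).1
    rw [Finsupp.degree_eq_sum]
    exact h1

instance hs_fin29 (m d : ℕ) (K : Type) [Field K] : Module.Finite K (hs m K d) := by
  rw [hs_eq_span29]
  exact Module.Finite.span_of_finite K (Set.finite_range _)

theorem finrank_hs29 (m d : ℕ) (K : Type) [Field K] :
    Module.finrank K (hs m K d) = (m + d - 1).choose d := by
  rw [hs_eq_span29, finrank_span_eq_card]
  · rw [Fintype.card_coe, Finset.card_finsuppAntidiag_nat_eq_choose, Finset.card_univ,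
      Fintype.card_fin]
  · have h1 := (basisMonomials (Fin m) K).linearIndependent
    have h2 := h1.comp (fun e : {e // e ∈ (Finset.univ : Finset (Fin m)).finsuppAntidiag d} => e.1)
      Subtype.val_injective
    have h3 : (fun e : {e // e ∈ (Finset.univ : Finset (Fin m)).finsuppAntidiag d} =>
        (monomial e.1 (1 : K) : R m K)) = (basisMonomials (Fin m) K) ∘
          (fun e : {e // e ∈ (Finset.univ : Finset (Fin m)).finsuppAntidiag d} => e.1) := by
      funext e
      simp [coe_basisMonomials]
    rw [h3]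
    exact h2

/-- linear forms from coordinates -/
noncomputable def lin29 (m : ℕ) (K : Type) [Field K] : (Fin m → K) →ₗ[K] R m K where
  toFun v := ∑ j, v j • X j
  map_add' v w := by simp [add_smul, Finset.sum_add_distrib]
  map_smul' a v := by simp [Finset.smul_sum, smul_smul]

theorem lin_apply29 (m : ℕ) (K : Type) [Field K] (v : Fin m → K) :
    lin29 m K v = ∑ j, v j • X j := rfl

theorem lin_single29 (m : ℕ) (K : Type) [Field K] (t : Fin m) :
    lin29 m K (Pi.single t 1) = X t := by
  rw [lin_apply29, Finset.sum_eq_single t]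
  · simp
  · intro b _ hb
    simp [Pi.single_eq_of_ne hb]
  · intro h; exact absurd (Finset.mem_univ _) h

theorem lin_hom29 (m : ℕ) (K : Type) [Field K] (v : Fin m → K) :
    (lin29 m K v).IsHomogeneous 1 := by
  rw [← mem_homogeneousSubmodule, lin_apply29]
  refine Submodule.sum_mem _ (fun j _ => Submodule.smul_mem _ _ ?_)
  exact (mem_homogeneousSubmodule _ _).2 (isHomogeneous_X _ _)

/-- the algebra homomorphism of a linear map -/
noncomputable def alg29 {m m' : ℕ} {K : Type} [Field K] (p : (Fin m → K) →ₗ[K] (Fin m' → K)) :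
    R m K →ₐ[K] R m' K := aeval (fun j => lin29 m' K (p (Pi.single j 1)))

theorem alg_lin29 {m m' : ℕ} {K : Type} [Field K] (p : (Fin m → K) →ₗ[K] (Fin m' → K))
    (v : Fin m → K) : alg29 p (lin29 m K v) = lin29 m' K (p v) := by
  have h : (alg29 p).toLinearMap ∘ₗ lin29 m K = lin29 m' K ∘ₗ p := by
    refine LinearMap.pi_ext' (fun j => ?_)
    refine LinearMap.ext_ring ?_
    show alg29 p (lin29 m K (Pi.single j 1)) = lin29 m' K (p (Pi.single j 1))
    rw [lin_single29, alg29, aeval_X]
  exact LinearMap.congr_fun h v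

theorem alg_hs29 {m m' d : ℕ} {K : Type} [Field K] (p : (Fin m → K) →ₗ[K] (Fin m' → K))
    (f : R m K) (hf : f ∈ hs m K d) : alg29 p f ∈ hs m' K d := by
  rw [mem_homogeneousSubmodule] at hf ⊢
  have h := hf.aeval (fun j => lin29 m' K (p (Pi.single j 1))) (fun j => lin_hom29 _ _ _)
  rw [one_mul] at h
  exact h

theorem comp_mul29 {n d : ℕ} {K : Type} [Field K] (a l : R n K) (hl : l ∈ hs n K 1) :
    homogeneousComponent (d + 1) (a * l) = homogeneousComponent d a * l := by
  have hl' : l.IsHomogeneous 1 := (mem_homogeneousSubmodule _ _).1 hl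
  conv_lhs => rw [← sum_homogeneousComponent a]
  rw [Finset.sum_mul, map_sum]
  have h1 : ∀ i, homogeneousComponent (d + 1) (homogeneousComponent i a * l) =
      if i = d then homogeneousComponent i a * l else 0 := by
    intro i
    have h2 : homogeneousComponent i a * l ∈ homogeneousSubmodule (Fin n) K (i + 1) := by
      rw [mem_homogeneousSubmodule]
      exact (homogeneousComponent_isHomogeneous i a).mul hl'
    rw [homogeneousComponent_of_mem h2]
    by_cases h : i = d
    · subst h; simp
    · rw [if_neg h, if_neg (by omega)]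
  rw [Finset.sum_congr rfl (fun i _ => h1 i), Finset.sum_ite_eq']
  by_cases h : d ∈ Finset.range (a.totalDegree + 1)
  · rw [if_pos h]
  · rw [if_neg h]
    rw [Finset.mem_range, not_lt] at h
    rw [homogeneousComponent_eq_zero _ _ (by omega), zero_mul]

theorem dim : StDIM := by
  intro n r K _ l hl hli hr d
  classical
  -- coordinates
  have hc : ∀ i, ∃ c : Fin n → K, lin29 n K c = l i := by
    intro i
    have h1 : l i ∈ hs n K 1 := hl i
    have h2 : l i ∈ Submodule.span K (Set.range (X : Fin n → R n K)) := by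
      rw [← homogeneousSubmodule_one_eq_span_X]; exact h1
    obtain ⟨c, hc⟩ := (Submodule.mem_span_range_iff_exists_fun K).1 h2
    exact ⟨c, hc⟩
  choose c hc using hc
  have hcli : LinearIndependent K c := by
    have h1 : (lin29 n K) ∘ c = l := funext hc
    exact LinearIndependent.of_comp (lin29 n K) (by rw [h1]; exact hli)
  let W : Submodule K (Fin n → K) := Submodule.span K (Set.range c)
  have hW : Module.finrank K W = r := by
    show Module.finrank K (Submodule.span K (Set.range c)) = r
    rw [finrank_span_eq_card hcli, Fintype.card_fin]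
  have hQ : Module.finrank K ((Fin n → K) ⧸ W) = n - r := by
    have h1 := W.finrank_quotient_add_finrank
    rw [hW, Module.finrank_fin_fun] at h1
    omega
  let e := (Module.finBasisOfFinrankEq K ((Fin n → K) ⧸ W) hQ).equivFun
  let p : (Fin n → K) →ₗ[K] (Fin (n - r) → K) := e.toLinearMap ∘ₗ W.mkQ
  have hpsurj : Function.Surjective p := e.surjective.comp W.mkQ_surjective
  have hpker : ∀ v, p v = 0 → v ∈ W := by
    intro v hv
    have h1 : e (W.mkQ v) = 0 := hv
    have h2 : W.mkQ v = 0 := by simpa using h1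
    simpa using h2
  have hpW : ∀ i, p (c i) = 0 := by
    intro i
    have h1 : W.mkQ (c i) = 0 := by
      simpa using (Submodule.subset_span ⟨i, rfl⟩ : c i ∈ Submodule.span K (Set.range c))
    show e (W.mkQ (c i)) = 0
    rw [h1, map_zero]
  obtain ⟨s, hs'⟩ := p.exists_rightInverse_of_surjective (LinearMap.range_eq_top.2 hpsurj)
  have hps : ∀ w, p (s w) = w := fun w => LinearMap.congr_fun hs' w
  -- π σ = 1
  have hπσ : ∀ f, alg29 p (alg29 s f) = f := by
    intro f
    have h1 : (alg29 p).comp (alg29 s) = AlgHom.id K _ := by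
      refine algHom_ext (fun t => ?_)
      show alg29 p (alg29 s (X t)) = X t
      rw [← lin_single29, alg_lin29, alg_lin29, hps]
    exact AlgHom.congr_fun h1 f
  -- f - σ π f in the ideal
  let I : Ideal (R n K) := Ideal.span (Set.range l)
  have hlinW : ∀ v ∈ W, lin29 n K v ∈ I := by
    intro v hv
    refine Submodule.span_induction ?_ ?_ ?_ ?_ hv
    · rintro _ ⟨i, rfl⟩
      rw [hc]
      exact Ideal.subset_span ⟨i, rfl⟩
    · rw [map_zero]; exact I.zero_mem
    · intro a b _ _ ha hb
      rw [map_add]; exact I.add_mem ha hb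
    · intro a b _ hb
      rw [map_smul, smul_eq_C_mul]
      exact I.mul_mem_left _ hb
  have hσπ : ∀ f, f - alg29 s (alg29 p f) ∈ I := by
    intro f
    have h1 : (Ideal.Quotient.mkₐ K I) = (Ideal.Quotient.mkₐ K I).comp ((alg29 s).comp (alg29 p)) := by
      refine algHom_ext (fun t => ?_)
      show Ideal.Quotient.mk I (X t) = Ideal.Quotient.mk I (alg29 s (alg29 p (X t)))
      rw [Ideal.Quotient.eq, ← lin_single29, alg_lin29, alg_lin29, ← map_sub]
      apply hlinW
      apply hpker
      rw [map_sub, hps, sub_self]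
    have h2 := AlgHom.congr_fun h1 f
    exact Ideal.Quotient.eq.1 h2
  have hker : ∀ f, alg29 p f = 0 → f ∈ I := by
    intro f hf
    have h1 := hσπ f
    rw [hf, map_zero, sub_zero] at h1
    exact h1
  -- the degree part of the ideal
  let S : Submodule K (R n K) := Submodule.span K {q | ∃ i, ∃ f ∈ hs n K d, q = l i * f}
  have hS : ∀ f ∈ hs n K (d + 1), f ∈ I → f ∈ S := by
    intro f hf hfI
    obtain ⟨a, ha⟩ := (Ideal.mem_span_range_iff_exists_fun).1 hfI
    have h1 : homogeneousComponent (d + 1) f = f :=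
      homogeneousComponent_eq_self ((mem_homogeneousSubmodule _ _).1 hf)
    rw [← h1, ← ha, map_sum]
    refine Submodule.sum_mem _ (fun i _ => ?_)
    rw [comp_mul29 _ _ (hl i), mul_comm]
    exact Submodule.subset_span ⟨i, _, (mem_homogeneousSubmodule _ _).2
      (homogeneousComponent_isHomogeneous _ _), rfl⟩
  have hS' : ∀ f ∈ S, f ∈ hs n K (d + 1) ∧ alg29 p f = 0 := by
    intro f hf
    refine Submodule.span_induction (p := fun f _ => f ∈ hs n K (d + 1) ∧ alg29 p f = 0)
      ?_ ?_ ?_ ?_ hf
    · rintro _ ⟨i, g, hg, rfl⟩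
      constructor
      · rw [mem_homogeneousSubmodule]
        have h1 := ((mem_homogeneousSubmodule _ _).1 (hl i)).mul
          ((mem_homogeneousSubmodule _ _).1 hg)
        rw [add_comm] at h1
        exact h1
      · rw [map_mul, ← hc i, alg_lin29, hpW, map_zero, zero_mul]
    · exact ⟨Submodule.zero_mem _, map_zero _⟩
    · intro a b _ _ ha hb
      exact ⟨Submodule.add_mem _ ha.1 hb.1, by rw [map_add, ha.2, hb.2, add_zero]⟩
    · intro a b _ hb
      exact ⟨Submodule.smul_mem _ _ hb.1, by rw [map_smul, hb.2, smul_zero]⟩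
  -- rank-nullity
  let G : hs n K (d + 1) →ₗ[K] hs (n - r) K (d + 1) :=
    ((alg29 p).toLinearMap.restrict (fun f hf => alg_hs29 p f hf))
  have hG : ∀ f, ((G f : R (n - r) K)) = alg29 p f.1 := fun f => rfl
  have hrange : LinearMap.range G = ⊤ := by
    rw [LinearMap.range_eq_top]
    intro g
    refine ⟨⟨alg29 s g.1, alg_hs29 s g.1 g.2⟩, Subtype.ext ?_⟩
    rw [hG]
    exact hπσ g.1
  have hkerG : (LinearMap.ker G).map (hs n K (d + 1)).subtype = S := by
    ext f
    constructor
    · rintro ⟨g, hg, rfl⟩
      have h1 : G g = 0 := hg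
      have h2 : alg29 p g.1 = 0 := by rw [← hG, h1]; rfl
      exact hS g.1 g.2 (hker _ h2)
    · intro hf
      obtain ⟨h1, h2⟩ := hS' f hf
      exact ⟨⟨f, h1⟩, Subtype.ext h2, rfl⟩
  have h1 := LinearMap.finrank_range_add_finrank_ker G
  have h2 : Module.finrank K (LinearMap.ker G) = Module.finrank K S := by
    rw [← hkerG]
    exact (Submodule.finrank_map_subtype_eq _ _).symm
  rw [hrange, finrank_top, finrank_hs29 (n - r)] at h1
  rw [← h1, h2, add_comm]
  congr 2

end Dim29

end Pool.Agent.K4H40.NS
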