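import Pool.Agent.K4H40.NS.Spec

set_option autoImplicit false

namespace Pool.Agent.K4H40.NS

open MvPolynomial

/-- the exponent of the monomial of a finite set -/
noncomputable def expo29 {n : ℕ} (F : Finset (Fin n)) : Fin n →₀ ℕ := ∑ v ∈ F, Finsupp.single v 1

theorem prod_X29 {n : ℕ} (K : Type) [Field K] (F : Finset (Fin n)) :
    (∏ v ∈ F, (X v : R n K)) = monomial (expo29 F) 1 := by
  unfold expo29
  rw [MvPolynomial.monomial_sum_one]
  rfl

theorem SR_eq29 {n : ℕ} (K : Type) [Field K] (Δ : Cplx n) :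
    SR K Δ = Ideal.span ((fun s => monomial s (1 : K)) '' {s | ∃ F, F ∉ Δ.faces ∧ s = expo29 F}) := by
  unfold SR
  congr 1
  ext p
  constructor
  · rintro ⟨F, hF, rfl⟩
    exact ⟨expo29 F, ⟨F, hF, rfl⟩, (prod_X29 K F).symm⟩
  · rintro ⟨s, ⟨F, hF, rfl⟩, rfl⟩
    exact ⟨F, hF, (prod_X29 K F).symm⟩

theorem mem_SR29 {n : ℕ} (K : Type) [Field K] (Δ : Cplx n) (f : R n K) :
    f ∈ SR K Δ ↔ ∀ m ∈ f.support, ∃ F, F ∉ Δ.faces ∧ expo29 F ≤ m := by
  rw [SR_eq29, MvPolynomial.mem_ideal_span_monomial_image]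
  constructor
  · intro h m hm
    obtain ⟨s, ⟨F, hF, rfl⟩, hs⟩ := h m hm
    exact ⟨F, hF, hs⟩
  · intro h m hm
    obtain ⟨F, hF, hs⟩ := h m hm
    exact ⟨_, ⟨F, hF, rfl⟩, hs⟩

theorem srh : StSRH := by
  intro n K _ Δ f hf d
  rw [mem_SR29] at hf ⊢
  intro m hm
  apply hf
  rw [MvPolynomial.mem_support_iff] at hm ⊢
  intro h
  apply hm
  rw [coeff_homogeneousComponent, h]
  simp

theorem degree_expo29 {n : ℕ} (F : Finset (Fin n)) : (expo29 F).degree = F.card := by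
  unfold expo29
  rw [map_sum]
  simp

theorem degree_mono29 {n : ℕ} {a b : Fin n →₀ ℕ} (h : a ≤ b) : a.degree ≤ b.degree := by
  obtain ⟨c, rfl⟩ := exists_add_of_le h
  rw [map_add]
  exact Nat.le_add_right _ _

theorem nb : StNB := by
  intro n K _ Δ k hk hN
  rw [eq_bot_iff]
  rintro f ⟨hf, hd⟩
  have hf' : f ∈ SR K Δ := hf
  have hd' : f.IsHomogeneous k := (mem_homogeneousSubmodule k f).1 hd
  rw [mem_SR29] at hf'
  rw [Submodule.mem_bot]
  by_contra h0
  obtain ⟨m, hm⟩ := MvPolynomial.support_nonempty.2 h0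
  obtain ⟨F, hF, hle⟩ := hf' m hm
  have hdeg : m.degree = k := by
    by_contra hne
    exact (MvPolynomial.mem_support_iff.1 hm) (hd'.coeff_eq_zero hne)
  have h1 : F.card ≤ k := by
    rw [← degree_expo29, ← hdeg]
    exact degree_mono29 hle
  obtain ⟨G, hFG, hG⟩ := Finset.exists_superset_card_eq h1 (by rw [Fintype.card_fin]; exact hk)
  exact hF (Δ.down G (hN G hG) F hFG)

end Pool.Agent.K4H40.NS
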